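import Mathlib

/-!
# Operations on binary relations and fragments of Tarski's relation algebra
-/

set_option autoImplicit false

namespace Pool.Agent.Work.MP_3f6cab_lc

/-- An `n`-ary operation on binary relations: it assigns a binary relation on `A` to every
structure with domain `A` and `n` binary relations. -/
def Op (n : ℕ) : Type 1 := ∀ A : Type, (Fin n → A → A → Prop) → A → A → Prop

/-- The terms of `BRA(O)` in the relation symbols `R_0, ..., R_(n-1)`. -/
inductive Term (O : Set (Σ k, Op k)) (n : ℕ) : Type 1
  | rel (i : Fin n) : Term O n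
  | app (k : ℕ) (f : Op k) (hf : (⟨k, f⟩ : Σ k, Op k) ∈ O) (args : Fin k → Term O n) : Term O n

/-- The operation defined by a term. -/
def Term.eval {O : Set (Σ k, Op k)} {n : ℕ} : Term O n → Op n
  | .rel i => fun _ R => R i
  | .app _ f _ args => fun A R => f A fun j => (args j).eval A R

/-- `f` is defined by some term of `BRA(O)` on all structures. -/
def Definable (O : Set (Σ k, Op k)) {n : ℕ} (f : Op n) : Prop :=
  ∃ t : Term O n, ∀ A R, t.eval A R = f A R

/-- The identity relation. -/
def idOp : Op 0 := fun _ _ x y => x = y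
/-- The empty relation. -/
def emptyOp : Op 0 := fun _ _ _ _ => False
/-- The complement. -/
def complOp : Op 1 := fun _ R x y => ¬ R 0 x y
/-- The intersection. -/
def interOp : Op 2 := fun _ R x y => R 0 x y ∧ R 1 x y
/-- The composition. -/
def compOp : Op 2 := fun _ R x y => ∃ z, R 0 x z ∧ R 1 z y
/-- The converse. -/
def convOp : Op 1 := fun _ R x y => R 0 y x

/-- The operations of Tarski's relation algebra. -/
def TRA : Set (Σ k, Op k) :=
  {⟨0, idOp⟩, ⟨0, emptyOp⟩, ⟨1, complOp⟩, ⟨2, interOp⟩, ⟨2, compOp⟩, ⟨1, convOp⟩}

/-- `f` is inclusion-safe: if `A` is (identified through the injection `e` with) an induced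
substructure of `B` and `(a, b) ∈ f(A)` then `(a, b) ∈ f(B)`. -/
def Safe {n : ℕ} (f : Op n) : Prop :=
  ∀ (A B : Type) (e : A ↪ B) (R : Fin n → B → B → Prop) (a b : A),
    f A (fun i x y => R i (e x) (e y)) a b → f B R (e a) (e b)

/-- `f` is safe for not necessarily induced substructures: if `(a, b) ∈ f(A)`, the domain of `A` is
(identified through the injection `e` with) a subset of that of `B`, and every relation of `A` is
contained in the corresponding relation of `B`, then `(a, b) ∈ f(B)`. -/
def WeakSafe {n : ℕ} (f : Op n) : Prop :=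
  ∀ (A B : Type) (e : A ↪ B) (Q : Fin n → A → A → Prop) (R : Fin n → B → B → Prop),
    (∀ i x y, Q i x y → R i (e x) (e y)) → ∀ a b, f A Q a b → f B R (e a) (e b)

/-- First-order formulas with equality, binary relation symbols in `I` and variables in `ℕ`. -/
inductive Fml (I : Type) : Type
  | rel (i : I) (x y : ℕ) : Fml I
  | eq (x y : ℕ) : Fml I
  | neg (φ : Fml I) : Fml I
  | and (φ ψ : Fml I) : Fml I
  | ex (x : ℕ) (φ : Fml I) : Fml I

/-- Satisfaction of a formula in a structure under an assignment. -/
def Fml.Sat {I D : Type} (R : I → D → D → Prop) : Fml I → (ℕ → D) → Prop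
  | .rel i x y, v => R i (v x) (v y)
  | .eq x y, v => v x = v y
  | .neg φ, v => ¬ φ.Sat R v
  | .and φ ψ, v => φ.Sat R v ∧ ψ.Sat R v
  | .ex x φ, v => ∃ d, φ.Sat R (Function.update v x d)

/-- `f` is first-order definable, in the variables `0` and `1`. -/
def FODefinable {n : ℕ} (f : Op n) : Prop :=
  ∃ φ : Fml (Fin n), ∀ (A : Type) (R : Fin n → A → A → Prop) (v : ℕ → A),
    f A R (v 0) (v 1) ↔ φ.Sat R v

/-- The inclusion-safe operations that are first-order definable. -/
def SafeFO : Set (Σ k, Op k) := {o | Safe o.2 ∧ FODefinable o.2}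

/-- The inclusion-safe operations that are term definable in `TRA`. -/
def SafeTRA : Set (Σ k, Op k) := {o | Safe o.2 ∧ Definable TRA o.2}

/-- The operations that are safe for not necessarily induced substructures and term definable in
`TRA`. -/
def WeakSafeTRA : Set (Σ k, Op k) := {o | WeakSafe o.2 ∧ Definable TRA o.2}

/-- `f` is safe for not necessarily induced substructures with a strictly smaller domain. -/
def ProperSafe {n : ℕ} (f : Op n) : Prop :=
  ∀ (A B : Type) (e : A ↪ B) (Q : Fin n → A → A → Prop) (R : Fin n → B → B → Prop),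
    (∀ i x y, Q i x y → R i (e x) (e y)) → (∃ w, ∀ x, e x ≠ w) →
      ∀ a b, f A Q a b → f B R (e a) (e b)

/-- The inclusion-safe operations that are safe for not necessarily induced substructures with a
strictly smaller domain and term definable in `TRA`. -/
def MaxSafeTRA : Set (Σ k, Op k) := {o | Safe o.2 ∧ ProperSafe o.2 ∧ Definable TRA o.2}

/-- The union. -/
def unionOp : Op 2 := fun _ R x y => R 0 x y ∨ R 1 x y
/-- The universal relation. -/
def topOp : Op 0 := fun _ _ _ _ => True

/-- Union, intersection, composition and the universal relation. -/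
def Basic : Set (Σ k, Op k) := {⟨2, unionOp⟩, ⟨2, interOp⟩, ⟨2, compOp⟩, ⟨0, topOp⟩}

/-- `C` is closed under composition: it contains every operation defined by a term of `BRA(C)`. -/
def Closed (C : Set (Σ k, Op k)) : Prop := ∀ (n : ℕ) (f : Op n), Definable C f → ⟨n, f⟩ ∈ C

end Pool.Agent.Work.MP_3f6cab_lc
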