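import Pool.Agent.Work.MP_3f6cab_lc.Defs

/-!
# Composition-closed sets of inclusion-safe operations of Tarski's relation algebra are not
finitely generated: the proof
-/

set_option autoImplicit false

namespace Pool.Agent.Work.MP_3f6cab_lc

/-! ## Terms of Tarski's algebra, over any type of relation symbols -/

/-- Operations with relation symbols in `I`. -/
def GOp (I : Type) : Type 1 := ∀ A : Type, (I → A → A → Prop) → A → A → Prop

/-- Terms of Tarski's algebra with relation symbols in `I`. -/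
inductive T3 (I : Type) : Type
  | rel (i : I) : T3 I
  | idt : T3 I
  | emp : T3 I
  | compl (t : T3 I) : T3 I
  | inter (s t : T3 I) : T3 I
  | comp (s t : T3 I) : T3 I
  | conv (t : T3 I) : T3 I

/-- The operation defined by a term. -/
def T3.eval {I : Type} : T3 I → GOp I
  | .rel i => fun _ R => R i
  | .idt => fun _ _ x y => x = y
  | .emp => fun _ _ _ _ => False
  | .compl t => fun A R x y => ¬ t.eval A R x y
  | .inter s t => fun A R x y => s.eval A R x y ∧ t.eval A R x y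
  | .comp s t => fun A R x y => ∃ z, s.eval A R x z ∧ t.eval A R z y
  | .conv t => fun A R x y => t.eval A R y x

/-- Definability by a term of Tarski's algebra. -/
def Def3 {I : Type} (f : GOp I) : Prop := ∃ t : T3 I, ∀ A R x y, t.eval A R x y ↔ f A R x y

namespace Def3

variable {I : Type}

theorem congr {f g : GOp I} (h : ∀ A R x y, f A R x y ↔ g A R x y) (hf : Def3 f) : Def3 g := by
  obtain ⟨t, ht⟩ := hf
  exact ⟨t, fun A R x y => (ht A R x y).trans (h A R x y)⟩

theorem rel (i : I) : Def3 (fun _ R x y => R i x y : GOp I) := ⟨.rel i, fun _ _ _ _ => Iff.rfl⟩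

theorem idt : Def3 (fun _ _ x y => x = y : GOp I) := ⟨.idt, fun _ _ _ _ => Iff.rfl⟩

theorem emp : Def3 (fun _ _ _ _ => False : GOp I) := ⟨.emp, fun _ _ _ _ => Iff.rfl⟩

theorem compl {f : GOp I} (hf : Def3 f) : Def3 (fun A R x y => ¬ f A R x y : GOp I) := by
  obtain ⟨t, ht⟩ := hf
  exact ⟨.compl t, fun A R x y => not_congr (ht A R x y)⟩

theorem top : Def3 (fun _ _ _ _ => True : GOp I) :=
  congr (fun _ _ _ _ => by simp) (compl emp)

theorem inter {f g : GOp I} (hf : Def3 f) (hg : Def3 g) :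
    Def3 (fun A R x y => f A R x y ∧ g A R x y : GOp I) := by
  obtain ⟨s, hs⟩ := hf
  obtain ⟨t, ht⟩ := hg
  exact ⟨.inter s t, fun A R x y => and_congr (hs A R x y) (ht A R x y)⟩

theorem union {f g : GOp I} (hf : Def3 f) (hg : Def3 g) :
    Def3 (fun A R x y => f A R x y ∨ g A R x y : GOp I) :=
  congr (fun _ _ _ _ => by tauto) (compl (inter (compl hf) (compl hg)))

theorem comp {f g : GOp I} (hf : Def3 f) (hg : Def3 g) :
    Def3 (fun A R x y => ∃ z, f A R x z ∧ g A R z y : GOp I) := by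
  obtain ⟨s, hs⟩ := hf
  obtain ⟨t, ht⟩ := hg
  exact ⟨.comp s t, fun A R x y => exists_congr fun z => and_congr (hs A R x z) (ht A R z y)⟩

theorem conv {f : GOp I} (hf : Def3 f) : Def3 (fun A R x y => f A R y x : GOp I) := by
  obtain ⟨t, ht⟩ := hf
  exact ⟨.conv t, fun A R x y => ht A R y x⟩

theorem finset {ι : Type} (s : Finset ι) {F : ι → GOp I} (hF : ∀ i, Def3 (F i)) :
    Def3 (fun A R x y => ∀ i ∈ s, F i A R x y : GOp I) := by
  classical
  induction s using Finset.induction_on with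
  | empty => exact congr (fun _ _ _ _ => by simp) top
  | insert i s _ ih => exact congr (fun _ _ _ _ => by simp) (inter (hF i) ih)

theorem all {ι : Type} [Finite ι] {F : ι → GOp I} (hF : ∀ i, Def3 (F i)) :
    Def3 (fun A R x y => ∀ i, F i A R x y : GOp I) := by
  have := Fintype.ofFinite ι
  exact congr (fun _ _ _ _ => by simp) (finset Finset.univ hF)

theorem ex {ι : Type} [Finite ι] {F : ι → GOp I} (hF : ∀ i, Def3 (F i)) :
    Def3 (fun A R x y => ∃ i, F i A R x y : GOp I) :=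
  congr (fun _ _ _ _ => by simp) (compl (all fun i => compl (hF i)))

theorem prop_and (p : Prop) {f : GOp I} (hf : Def3 f) :
    Def3 (fun A R x y => p ∧ f A R x y : GOp I) := by
  by_cases h : p
  · exact congr (fun _ _ _ _ => by simp [h]) hf
  · exact congr (fun _ _ _ _ => by simp [h]) emp

theorem iff_prop (p : Prop) {f : GOp I} (hf : Def3 f) :
    Def3 (fun A R x y => f A R x y ↔ p : GOp I) := by
  by_cases h : p
  · exact congr (fun _ _ _ _ => by simp [h]) hf
  · exact congr (fun _ _ _ _ => by simp [h]) (compl hf)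

end Def3

/-- From terms of `BRA(TRA)` to terms of Tarski's algebra. -/
theorem def3_of_term {n : ℕ} (t : Term TRA n) : Def3 (fun A R x y => t.eval A R x y : GOp (Fin n)) := by
  induction t with
  | rel i => exact Def3.rel i
  | app k f hf args ih =>
    simp only [TRA, Set.mem_insert_iff, Set.mem_singleton_iff, Sigma.mk.injEq] at hf
    rcases hf with ⟨rfl, h⟩ | ⟨rfl, h⟩ | ⟨rfl, h⟩ | ⟨rfl, h⟩ | ⟨rfl, h⟩ | ⟨rfl, h⟩ <;>
      (have h' := eq_of_heq h; subst h')
    · exact Def3.idt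
    · exact Def3.emp
    · exact Def3.compl (ih 0)
    · exact Def3.inter (ih 0) (ih 1)
    · exact Def3.comp (ih 0) (ih 1)
    · exact Def3.conv (ih 0)

theorem def3_of_definable {n : ℕ} {f : Op n} (h : Definable TRA f) : Def3 (f : GOp (Fin n)) := by
  obtain ⟨t, ht⟩ := h
  exact Def3.congr (fun A R x y => by rw [ht]) (def3_of_term t)

theorem definable_of_t3 {n : ℕ} (t : T3 (Fin n)) : Definable TRA (t.eval : Op n) := by
  have m1 : (⟨0, idOp⟩ : Σ k, Op k) ∈ TRA := by simp [TRA]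
  have m2 : (⟨0, emptyOp⟩ : Σ k, Op k) ∈ TRA := by simp [TRA]
  have m3 : (⟨1, complOp⟩ : Σ k, Op k) ∈ TRA := by simp [TRA]
  have m4 : (⟨2, interOp⟩ : Σ k, Op k) ∈ TRA := by simp [TRA]
  have m5 : (⟨2, compOp⟩ : Σ k, Op k) ∈ TRA := by simp [TRA]
  have m6 : (⟨1, convOp⟩ : Σ k, Op k) ∈ TRA := by simp [TRA]
  induction t with
  | rel i => exact ⟨.rel i, fun _ _ => rfl⟩
  | idt => exact ⟨.app 0 idOp m1 Fin.elim0, fun _ _ => rfl⟩
  | emp => exact ⟨.app 0 emptyOp m2 Fin.elim0, fun _ _ => rfl⟩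
  | compl t ih =>
    obtain ⟨u, hu⟩ := ih
    refine ⟨.app 1 complOp m3 fun _ => u, fun A R => ?_⟩
    simp only [Term.eval, T3.eval, hu]
    rfl
  | inter s t ihs iht =>
    obtain ⟨u, hu⟩ := ihs
    obtain ⟨v, hv⟩ := iht
    refine ⟨.app 2 interOp m4 ![u, v], fun A R => ?_⟩
    show (fun x y => u.eval A R x y ∧ v.eval A R x y) = _
    rw [hu, hv]
    rfl
  | comp s t ihs iht =>
    obtain ⟨u, hu⟩ := ihs
    obtain ⟨v, hv⟩ := iht
    refine ⟨.app 2 compOp m5 ![u, v], fun A R => ?_⟩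
    show (fun x y => ∃ z, u.eval A R x z ∧ v.eval A R z y) = _
    rw [hu, hv]
    rfl
  | conv t ih =>
    obtain ⟨u, hu⟩ := ih
    refine ⟨.app 1 convOp m6 fun _ => u, fun A R => ?_⟩
    simp only [Term.eval, T3.eval, hu]
    rfl

theorem definable_of_def3 {n : ℕ} {f : Op n} (h : Def3 (f : GOp (Fin n))) : Definable TRA f := by
  obtain ⟨t, ht⟩ := h
  obtain ⟨u, hu⟩ := definable_of_t3 t
  refine ⟨u, fun A R => (hu A R).trans ?_⟩
  funext x y
  exact propext (ht A R x y)

/-- Substitution of terms for relation symbols. -/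
def T3.subst {I J : Type} (σ : I → T3 J) : T3 I → T3 J
  | .rel i => σ i
  | .idt => .idt
  | .emp => .emp
  | .compl t => .compl (t.subst σ)
  | .inter s t => .inter (s.subst σ) (t.subst σ)
  | .comp s t => .comp (s.subst σ) (t.subst σ)
  | .conv t => .conv (t.subst σ)

theorem T3.eval_subst {I J : Type} (σ : I → T3 J) (t : T3 I) (A : Type) (R : J → A → A → Prop) :
    (t.subst σ).eval A R = t.eval A fun i => (σ i).eval A R := by
  induction t with
  | rel i => rfl
  | idt => rfl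
  | emp => rfl
  | compl t ih => simp only [T3.subst, T3.eval, ih]
  | inter s t ihs iht => simp only [T3.subst, T3.eval, ihs, iht]
  | comp s t ihs iht => simp only [T3.subst, T3.eval, ihs, iht]
  | conv t ih => simp only [T3.subst, T3.eval, ih]

theorem Def3.subst {I J : Type} {f : GOp I} (hf : Def3 f) {g : I → GOp J} (hg : ∀ i, Def3 (g i)) :
    Def3 (fun A R x y => f A (fun i => g i A R) x y : GOp J) := by
  obtain ⟨t, ht⟩ := hf
  choose σ hσ using hg
  refine ⟨t.subst σ, fun A R x y => ?_⟩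
  have : (fun i => (σ i).eval A R) = fun i => g i A R := by
    funext i x y
    exact propext (hσ i A R x y)
  rw [T3.eval_subst, this]
  exact ht A _ x y

/-- Translation into first-order logic; `k` is above all variables in use. -/
def T3.tr {I : Type} : T3 I → ℕ → ℕ → ℕ → Fml I
  | .rel i, x, y, _ => .rel i x y
  | .idt, x, y, _ => .eq x y
  | .emp, x, _, _ => .neg (.eq x x)
  | .compl t, x, y, k => .neg (t.tr x y k)
  | .inter s t, x, y, k => .and (s.tr x y k) (t.tr x y k)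
  | .comp s t, x, y, k => .ex k (.and (s.tr x k (k + 1)) (t.tr k y (k + 1)))
  | .conv t, x, y, k => t.tr y x k

theorem T3.sat_tr {I A : Type} (R : I → A → A → Prop) (t : T3 I) : ∀ (x y k : ℕ) (v : ℕ → A),
    x < k → y < k → ((t.tr x y k).Sat R v ↔ t.eval A R (v x) (v y)) := by
  induction t with
  | rel i => exact fun _ _ _ _ _ _ => Iff.rfl
  | idt => exact fun _ _ _ _ _ _ => Iff.rfl
  | emp => exact fun _ _ _ _ _ _ => by simp [T3.tr, Fml.Sat, T3.eval]
  | compl t ih => exact fun x y k v hx hy => not_congr (ih x y k v hx hy)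
  | inter s t ihs iht => exact fun x y k v hx hy => and_congr (ihs x y k v hx hy) (iht x y k v hx hy)
  | comp s t ihs iht =>
    intro x y k v hx hy
    refine exists_congr fun d => ?_
    refine and_congr ?_ ?_
    · rw [ihs x k (k + 1) _ (by omega) (by omega), Function.update_self,
        Function.update_of_ne (by omega)]
    · rw [iht k y (k + 1) _ (by omega) (by omega), Function.update_self,
        Function.update_of_ne (by omega)]
  | conv t ih => exact fun x y k v hx hy => ih y x k v hy hx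

theorem safeTRA_subset : SafeTRA ⊆ SafeFO := by
  rintro ⟨n, f⟩ ⟨h1, h2⟩
  obtain ⟨t, ht⟩ := def3_of_definable h2
  exact ⟨h1, t.tr 0 1 2, fun A R v => ((T3.sat_tr R t 0 1 2 v (by omega) (by omega)).trans
    (ht A R _ _)).symm⟩

/-! ## Ultraproducts -/

section Ultra

variable {ι : Type} (u : Ultrafilter ι) {D : ι → Type}

/-- The class of a choice function in an ultraproduct. -/
def mkU (a : ∀ k, D k) : (u : Filter ι).Product D := Quotient.mk'' a

theorem mkU_eq {a b : ∀ k, D k} : mkU u a = mkU u b ↔ ∀ᶠ k in (u : Filter ι), a k = b k :=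
  Quotient.eq''

theorem mkU_surj (x : (u : Filter ι).Product D) : ∃ a, mkU u a = x := by
  induction x using Quotient.inductionOn' with
  | h a => exact ⟨a, rfl⟩

/-- Relations on an ultraproduct. -/
def URel {I : Type} (R : ∀ k, I → D k → D k → Prop) (i : I)
    (x y : (u : Filter ι).Product D) : Prop :=
  Quotient.liftOn₂' x y (fun a b => ∀ᶠ k in (u : Filter ι), R k i (a k) (b k)) (by
    intro a b a' b' h h'
    simp only [eq_iff_iff]
    refine Filter.eventually_congr ?_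
    filter_upwards [h, h'] with k hk hk'
    rw [hk, hk'])

theorem los {I : Type} (R : ∀ k, I → D k → D k → Prop) (φ : Fml I) :
    ∀ v : ℕ → ∀ k, D k, φ.Sat (URel u R) (fun n => mkU u (v n))
      ↔ ∀ᶠ k in (u : Filter ι), φ.Sat (R k) fun n => v n k := by
  induction φ with
  | rel i x y => exact fun v => Iff.rfl
  | eq x y => exact fun v => mkU_eq u
  | neg φ ih =>
    intro v
    simp only [Fml.Sat, ih v]
    exact Ultrafilter.eventually_not.symm
  | and φ ψ ih1 ih2 =>
    intro v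
    simp only [Fml.Sat, ih1 v, ih2 v]
    exact Filter.eventually_and.symm
  | ex x φ ih =>
    intro v
    have e1 : ∀ c : ∀ k, D k, Function.update (fun n => mkU u (v n)) x (mkU u c) =
        fun n => mkU u (Function.update v x c n) := by
      intro c
      funext n
      by_cases h : n = x
      · subst h
        simp
      · simp [Function.update_of_ne h]
    have e2 : ∀ (c : ∀ k, D k) (k : ι), (fun n => Function.update v x c n k) =
        Function.update (fun n => v n k) x (c k) := by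
      intro c k
      funext n
      by_cases h : n = x
      · subst h
        simp
      · simp [Function.update_of_ne h]
    simp only [Fml.Sat]
    constructor
    · rintro ⟨z, h⟩
      obtain ⟨c, rfl⟩ := mkU_surj u z
      rw [e1, ih] at h
      filter_upwards [h] with k hk
      rw [e2] at hk
      exact ⟨c k, hk⟩
    · intro h
      classical
      refine ⟨mkU u fun k =>
        if hk : ∃ d, φ.Sat (R k) (Function.update (fun n => v n k) x d) then hk.choose
        else v 0 k, ?_⟩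
      rw [e1, ih]
      filter_upwards [h] with k hk
      rw [e2, dif_pos hk]
      exact hk.choose_spec

theorem los_fo {n : ℕ} {f : Op n} (hf : FODefinable f) (R : ∀ k, Fin n → D k → D k → Prop)
    (a b : ∀ k, D k) : f ((u : Filter ι).Product D) (URel u R) (mkU u a) (mkU u b) ↔
      ∀ᶠ k in (u : Filter ι), f (D k) (R k) (a k) (b k) := by
  obtain ⟨φ, hφ⟩ := hf
  have h1 := hφ _ (URel u R) fun n => mkU u (if n = 0 then a else b)
  rw [los] at h1
  simp only [if_true, one_ne_zero, if_false] at h1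
  rw [h1]
  refine Filter.eventually_congr (Filter.Eventually.of_forall fun k => ?_)
  rw [← hφ]
  simp

end Ultra


/-! ## Bounds for safe operations -/

/-- Truth at a pair in the induced substructure on a finite set. -/
def OnFin {n : ℕ} (f : Op n) (D : Type) (R : Fin n → D → D → Prop) (s : Finset D) (a b : D) : Prop :=
  ∃ (ha : a ∈ s) (hb : b ∈ s), f {x // x ∈ s} (fun i x y => R i x.1 y.1) ⟨a, ha⟩ ⟨b, hb⟩

theorem exists_fin {n : ℕ} {f : Op n} (hs : Safe f) (h3 : FODefinable f)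
    {D : Type} {R : Fin n → D → D → Prop} {a b : D} (h : f D R a b) : ∃ s, OnFin f D R s a b := by
  classical
  let u : Ultrafilter (Finset D) := Ultrafilter.of Filter.atTop
  have hu : (u : Filter (Finset D)) ≤ Filter.atTop := Ultrafilter.of_le _
  have hmem : ∀ s : Finset D, ∀ᶠ k in (u : Filter (Finset D)), s ⊆ k :=
    fun s => hu (Filter.eventually_ge_atTop s)
  let E : Finset D → Type := fun k => {x // x ∈ insert a (insert b k)}
  let RE : ∀ k, Fin n → E k → E k → Prop := fun k i x y => R i x.1 y.1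
  let g : D → ∀ k, E k := fun d k =>
    if h : d ∈ insert a (insert b k) then ⟨d, h⟩ else ⟨a, by simp⟩
  have hg : ∀ d, ∀ᶠ k in (u : Filter (Finset D)), (g d k).1 = d := by
    intro d
    filter_upwards [hmem {d}] with k hk
    have : d ∈ insert a (insert b k) := by
      have := hk (Finset.mem_singleton_self d)
      simp [this]
    simp only [g, dif_pos this]
  have hga : ∀ k, g a k = ⟨a, by simp⟩ := fun k => by simp [g]
  have hgb : ∀ k, g b k = ⟨b, by simp⟩ := fun k => by simp [g]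
  let e : D ↪ (u : Filter (Finset D)).Product E := ⟨fun d => mkU u (g d), by
    intro d d' h
    have h' : ∀ᶠ k in (u : Filter (Finset D)), g d k = g d' k := (mkU_eq u).1 h
    obtain ⟨k, h1, h2, h3⟩ := (h'.and ((hg d).and (hg d'))).exists
    rw [← h2, h1, h3]⟩
  have hR : (fun i x y => URel u RE i (e x) (e y)) = R := by
    funext i x y
    apply propext
    show (∀ᶠ k in (u : Filter (Finset D)), R i (g x k).1 (g y k).1) ↔ _
    constructor
    · intro h
      obtain ⟨k, h1, h2, h3⟩ := (h.and ((hg x).and (hg y))).exists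
      rwa [h2, h3] at h1
    · intro h
      filter_upwards [hg x, hg y] with k h1 h2
      rwa [h1, h2]
  have h1 := hs D _ e (URel u RE) a b (by rw [hR]; exact h)
  have h2 := (los_fo u h3 RE (g a) (g b)).1 h1
  obtain ⟨k, hk⟩ := h2.exists
  rw [hga, hgb] at hk
  exact ⟨insert a (insert b k), by simp, by simp, hk⟩

theorem exists_bound {n : ℕ} {f : Op n} (hs : Safe f) (h3 : FODefinable f) :
    ∃ N : ℕ, ∀ (D : Type) (R : Fin n → D → D → Prop) (a b : D), f D R a b →
      ∃ s : Finset D, s.card ≤ N ∧ OnFin f D R s a b := by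
  classical
  by_contra hcon
  push Not at hcon
  choose D R a b hf hno using hcon
  let u : Ultrafilter ℕ := Filter.hyperfilter ℕ
  have hu : ∀ m : ℕ, ∀ᶠ k in (u : Filter ℕ), m ≤ k := by
    intro m
    have h1 : (u : Filter ℕ) ≤ Filter.cofinite := Filter.hyperfilter_le_cofinite
    rw [Nat.cofinite_eq_atTop] at h1
    exact h1 (Filter.eventually_ge_atTop m)
  have h1 : f ((u : Filter ℕ).Product D) (URel u R) (mkU u a) (mkU u b) := by
    exact (los_fo u h3 R a b).2 (Filter.Eventually.of_forall hf)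
  obtain ⟨s, ha, hb, h2⟩ := exists_fin hs h3 h1
  choose r hr using mkU_surj (u := u) (D := D)
  have ea : ∀ᶠ k in (u : Filter ℕ), r (mkU u a) k = a k := (mkU_eq u).1 (hr _)
  have eb : ∀ᶠ k in (u : Filter ℕ), r (mkU u b) k = b k := (mkU_eq u).1 (hr _)
  have e1 : ∀ᶠ k in (u : Filter ℕ), ∀ x ∈ s, ∀ y ∈ s, r x k = r y k → x = y := by
    rw [Filter.eventually_all_finset]
    intro x _
    rw [Filter.eventually_all_finset]
    intro y _
    by_cases h : ∀ᶠ k in (u : Filter ℕ), r x k = r y k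
    · have hxy : x = y := by
        rw [← hr x, ← hr y]
        exact (mkU_eq u).2 h
      exact Filter.Eventually.of_forall fun _ _ => hxy
    · filter_upwards [Ultrafilter.eventually_not.2 h] with k hk hk'
      exact absurd hk' hk
  have e2 : ∀ᶠ k in (u : Filter ℕ), ∀ x ∈ s, ∀ y ∈ s, ∀ i : Fin n,
      (R k i (r x k) (r y k) ↔ URel u R i x y) := by
    rw [Filter.eventually_all_finset]
    intro x _
    rw [Filter.eventually_all_finset]
    intro y _
    rw [Filter.eventually_all]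
    intro i
    have hxy : URel u R i x y ↔ ∀ᶠ k in (u : Filter ℕ), R k i (r x k) (r y k) := by
      conv_lhs => rw [← hr x, ← hr y]
      rfl
    by_cases h : ∀ᶠ k in (u : Filter ℕ), R k i (r x k) (r y k)
    · filter_upwards [h] with k hk
      exact iff_of_true hk (hxy.2 h)
    · filter_upwards [Ultrafilter.eventually_not.2 h] with k hk
      exact iff_of_false hk fun h' => h (hxy.1 h')
  obtain ⟨k, h3, h4, h5, h6, h7⟩ :=
    ((hu s.card).and (ea.and (eb.and (e1.and e2)))).exists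
  refine hno k (s.image fun x => r x k) (Finset.card_image_le.trans h3) ?_
  have ma : a k ∈ s.image fun x => r x k := by
    rw [← h4]
    exact Finset.mem_image_of_mem (fun x => r x k) ha
  have mb : b k ∈ s.image fun x => r x k := by
    rw [← h5]
    exact Finset.mem_image_of_mem (fun x => r x k) hb
  refine ⟨ma, mb, ?_⟩
  let g : {x // x ∈ s} ↪ {x // x ∈ s.image fun x => r x k} :=
    ⟨fun x => ⟨r x.1 k, Finset.mem_image_of_mem (fun x => r x k) x.2⟩, by
      intro x y hxy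
      exact Subtype.ext (h6 x.1 x.2 y.1 y.2 (congrArg Subtype.val hxy))⟩
  have hg : (fun (i : Fin n) (x y : {x // x ∈ s}) => R k i (g x).1 (g y).1) =
      fun i x y => URel u R i x.1 y.1 := by
    funext i x y
    exact propext (h7 x.1 x.2 y.1 y.2 i)
  have h8 := hs _ _ g (fun i x y => R k i x.1 y.1) ⟨_, ha⟩ ⟨_, hb⟩ (by rw [hg]; exact h2)
  have ga : g ⟨_, ha⟩ = ⟨a k, ma⟩ := Subtype.ext h4
  have gb : g ⟨_, hb⟩ = ⟨b k, mb⟩ := Subtype.ext h5
  rwa [ga, gb] at h8

/-! ## Closed sets of safe operations -/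

/-- The auxiliary operation `X ∪ (Y ∩ ⊤ Z ⊤)`. -/
def tau : Op 3 := fun _ X x y => X 0 x y ∨ (X 1 x y ∧ ∃ u v, X 2 u v)

theorem tau_mem : (⟨3, tau⟩ : Σ k, Op k) ∈ WeakSafeTRA := by
  refine ⟨?_, definable_of_def3 ?_⟩
  · rintro A B e Q R h a b (h0 | ⟨h1, u, v, h2⟩)
    · exact Or.inl (h _ _ _ h0)
    · exact Or.inr ⟨h _ _ _ h1, e u, e v, h _ _ _ h2⟩
  · refine Def3.congr (fun A R x y => ?_) (Def3.union (Def3.rel 0) (Def3.inter (Def3.rel 1)
      (Def3.comp (Def3.comp Def3.top (Def3.rel 2)) Def3.top)))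
    simp only [tau, and_true, true_and]
    constructor
    · rintro (h | ⟨h, v, u, h'⟩)
      · exact Or.inl h
      · exact Or.inr ⟨h, u, v, h'⟩
    · rintro (h | ⟨h, u, v, h'⟩)
      · exact Or.inl h
      · exact Or.inr ⟨h, v, u, h'⟩

/-- Operations of a closed set of safe operations above the weakly safe ones are preserved by
proper weak extensions. -/
theorem proper_ext {C : Set (Σ k, Op k)} (hC : Closed C)
    (hW : (⟨3, tau⟩ : Σ k, Op k) ∈ C) (hS : C ⊆ SafeFO) {n : ℕ} {f : Op n} (hf : (⟨n, f⟩ : Σ k, Op k) ∈ C)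
    {A B : Type} (e : A ↪ B) (w : B) (hw : ∀ x, e x ≠ w) {Q : Fin n → A → A → Prop}
    {R : Fin n → B → B → Prop} (hQR : ∀ i x y, Q i x y → R i (e x) (e y)) {a b : A}
    (h : f A Q a b) : f B R (e a) (e b) := by
  let t : Term C (n + n + 1) := .app n f hf fun j => .app 3 tau hW
    ![.rel (Fin.castSucc (Fin.castAdd n j)), .rel (Fin.castSucc (Fin.natAdd n j)), .rel (Fin.last _)]
  have hF : Safe (t.eval) := (hS (hC _ t.eval ⟨t, fun _ _ => rfl⟩)).1
  have hev : ∀ (D : Type) (P : Fin (n + n + 1) → D → D → Prop), t.eval D P =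
      f D fun j x y => P (Fin.castSucc (Fin.castAdd n j)) x y ∨
        (P (Fin.castSucc (Fin.natAdd n j)) x y ∧ ∃ u v, P (Fin.last _) u v) := by
    intro D P
    rfl
  let T : Fin n → B → B → Prop := fun j x y => ∃ x0 y0, e x0 = x ∧ e y0 = y ∧ Q j x0 y0
  let P : Fin (n + n + 1) → B → B → Prop :=
    Fin.snoc (α := fun _ => B → B → Prop) (Fin.append T R) fun u v => u = w ∧ v = w
  have p1 : ∀ j, P (Fin.castSucc (Fin.castAdd n j)) = T j := by
    intro j
    simp only [P, Fin.snoc_castSucc, Fin.append_left]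
  have p2 : ∀ j, P (Fin.castSucc (Fin.natAdd n j)) = R j := by
    intro j
    simp only [P, Fin.snoc_castSucc, Fin.append_right]
  have p3 : P (Fin.last _) = fun u v => u = w ∧ v = w := by
    simp only [P, Fin.snoc_last]
  have h1 := hF A B e P a b
  rw [hev, hev] at h1
  have h2 : (fun (j : Fin n) (x y : A) => P (Fin.castSucc (Fin.castAdd n j)) (e x) (e y) ∨
      (P (Fin.castSucc (Fin.natAdd n j)) (e x) (e y) ∧ ∃ u v, P (Fin.last _) (e u) (e v))) = Q := by
    funext j x y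
    rw [p1, p2, p3]
    apply propext
    constructor
    · rintro (⟨x0, y0, h3, h4, h5⟩ | ⟨-, u, v, h3, -⟩)
      · rwa [e.injective h3, e.injective h4] at h5
      · exact absurd h3 (hw u)
    · exact fun h3 => Or.inl ⟨x, y, rfl, rfl, h3⟩
  have h3 : (fun (j : Fin n) (x y : B) => P (Fin.castSucc (Fin.castAdd n j)) x y ∨
      (P (Fin.castSucc (Fin.natAdd n j)) x y ∧ ∃ u v, P (Fin.last _) u v)) = R := by
    funext j x y
    rw [p1, p2, p3]
    apply propext
    constructor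
    · rintro (⟨x0, y0, rfl, rfl, h5⟩ | ⟨h4, -⟩)
      · exact hQR _ _ _ h5
      · exact h4
    · exact fun h4 => Or.inr ⟨h4, w, w, rfl, rfl⟩
  rw [h2, h3] at h1
  exact h1 h

/-! ## Strategies -/

/-- A family of finite injections with the extension property up to size `K`. -/
structure Strategy (K : ℕ) {D D' : Type} (S : Finset (D × D') → Prop) : Prop where
  fn : ∀ h, S h → ∀ p ∈ h, ∀ q ∈ h, (p.1 = q.1 ↔ p.2 = q.2)
  sub : ∀ h h', h' ⊆ h → S h → S h'
  forth : ∀ h, S h → h.card < K → ∀ d : D, ∃ h', S h' ∧ h ⊆ h' ∧ ∃ d', (d, d') ∈ h'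

/-- A family of finite maps preserves a relation. -/
def Pres {D D' : Type} (S : Finset (D × D') → Prop) (X : D → D → Prop) (Y : D' → D' → Prop) :
    Prop :=
  ∀ h, S h → ∀ p ∈ h, ∀ q ∈ h, X p.1 q.1 → Y p.2 q.2

theorem Strategy.extend {K : ℕ} {D D' : Type} {S : Finset (D × D') → Prop} (hS : Strategy K S)
    {h : Finset (D × D')} (hh : S h) (s : Finset D) :
    h.card + s.card ≤ K → ∃ h', S h' ∧ h ⊆ h' ∧ h'.card ≤ h.card + s.card ∧
      ∀ d ∈ s, ∃ d', (d, d') ∈ h' := by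
  classical
  induction s using Finset.induction_on with
  | empty => exact fun _ => ⟨h, hh, subset_rfl, by simp, by simp⟩
  | insert d s hd ih =>
    intro hcard
    rw [Finset.card_insert_of_notMem hd] at hcard
    obtain ⟨h1, hs1, hsub, hc, hall⟩ := ih (by omega)
    obtain ⟨h2, hs2, hsub2, d', hd'⟩ := hS.forth h1 hs1 (by omega) d
    have h3 : insert (d, d') h1 ⊆ h2 := Finset.insert_subset hd' hsub2
    refine ⟨insert (d, d') h1, hS.sub _ _ h3 hs2, hsub.trans (Finset.subset_insert _ _), ?_, ?_⟩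
    · rw [Finset.card_insert_of_notMem hd]
      have := Finset.card_insert_le (d, d') h1
      omega
    · intro x hx
      rcases Finset.mem_insert.1 hx with rfl | hx
      · exact ⟨d', Finset.mem_insert_self _ _⟩
      · obtain ⟨x', hx'⟩ := hall x hx
        exact ⟨x', Finset.mem_insert_of_mem hx'⟩

theorem pres_app {C : Set (Σ k, Op k)} (hC : Closed C) (hW : WeakSafeTRA ⊆ C)
    (hS : C ⊆ SafeFO) {n : ℕ} {f : Op n} (hf : (⟨n, f⟩ : Σ k, Op k) ∈ C) {N K : ℕ}
    (hN : ∀ (D : Type) (R : Fin n → D → D → Prop) (a b : D), f D R a b →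
      ∃ s : Finset D, s.card ≤ N ∧ OnFin f D R s a b) (hK : N + 2 ≤ K)
    {D D' : Type} [Infinite D'] {S : Finset (D × D') → Prop} (hS' : Strategy K S)
    {X : Fin n → D → D → Prop} {Y : Fin n → D' → D' → Prop} (hXY : ∀ i, Pres S (X i) (Y i)) :
    Pres S (f D X) (f D' Y) := by
  classical
  intro h hh p hp q hq hpq
  obtain ⟨s, hs, hps, hqs, h1⟩ := hN D X p.1 q.1 hpq
  have h2 : ({p, q} : Finset (D × D')) ⊆ h := by
    intro x hx
    rcases Finset.mem_insert.1 hx with rfl | hx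
    · exact hp
    · rw [Finset.mem_singleton.1 hx]
      exact hq
  have hc : ({p, q} : Finset (D × D')).card ≤ 2 := Finset.card_le_two
  obtain ⟨h', hh', hsub, -, hall⟩ := hS'.extend (hS'.sub _ _ h2 hh) s (by omega)
  choose! g hg using hall
  let e : {x // x ∈ s} ↪ D' := ⟨fun x => g x.1, by
    intro x y hxy
    exact Subtype.ext ((hS'.fn h' hh' _ (hg x.1 x.2) _ (hg y.1 y.2)).2 hxy)⟩
  obtain ⟨w, hw⟩ := Infinite.exists_notMem_finset (Finset.univ.image e)
  have h3 := proper_ext hC (hW tau_mem) hS hf e w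
    (fun x hx => hw (hx ▸ Finset.mem_image_of_mem e (Finset.mem_univ x)))
    (Q := fun i x y => X i x.1 y.1) (R := Y)
    (fun i x y hxy => hXY i h' hh' _ (hg x.1 x.2) _ (hg y.1 y.2) hxy) h1
  have hp' : p ∈ h' := hsub (by simp)
  have hq' : q ∈ h' := hsub (by simp)
  have e1 : e ⟨p.1, hps⟩ = p.2 := (hS'.fn h' hh' _ (hg _ hps) _ hp').1 rfl
  have e2 : e ⟨q.1, hqs⟩ = q.2 := (hS'.fn h' hh' _ (hg _ hqs) _ hq').1 rfl
  rwa [e1, e2] at h3

theorem pres_term {C : Set (Σ k, Op k)} (hC : Closed C) (hW : WeakSafeTRA ⊆ C)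
    (hS : C ⊆ SafeFO) {O : Set (Σ k, Op k)} (hO : O ⊆ C) {K : ℕ}
    (hK : ∀ (n : ℕ) (f : Op n), (⟨n, f⟩ : Σ k, Op k) ∈ O → ∃ N, N + 2 ≤ K ∧
      ∀ (D : Type) (R : Fin n → D → D → Prop) (a b : D), f D R a b →
        ∃ s : Finset D, s.card ≤ N ∧ OnFin f D R s a b)
    {D D' : Type} [Infinite D'] {S : Finset (D × D') → Prop} (hS' : Strategy K S) {m : ℕ}
    {X : Fin m → D → D → Prop} {Y : Fin m → D' → D' → Prop} (hXY : ∀ i, Pres S (X i) (Y i))
    (t : Term O m) : Pres S (t.eval D X) (t.eval D' Y) := by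
  induction t with
  | rel i => exact hXY i
  | app k f hf args ih =>
    obtain ⟨N, h1, h2⟩ := hK k f hf
    exact pres_app hC hW hS (hO hf) h2 h1 hS' ih

/-! ## Three-variable equivalence of bounded rank -/

/-- Equivalence of pairs up to rank `r`. -/
def Bis {I : Type} {D D' : Type} (R : I → D → D → Prop) (R' : I → D' → D' → Prop) :
    ℕ → D → D → D' → D' → Prop
  | 0, a, b, a', b' => (∀ i, R i a b ↔ R' i a' b') ∧ (∀ i, R i b a ↔ R' i b' a') ∧ (a = b ↔ a' = b')
  | r + 1, a, b, a', b' => Bis R R' r a b a' b' ∧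
      (∀ c, ∃ c', Bis R R' r a c a' c' ∧ Bis R R' r c b c' b') ∧
      (∀ c', ∃ c, Bis R R' r a c a' c' ∧ Bis R R' r c b c' b')

namespace Bis

variable {I : Type} {D D' : Type} {R : I → D → D → Prop} {R' : I → D' → D' → Prop}

theorem mono {r s : ℕ} (hrs : r ≤ s) {a b : D} {a' b' : D'} (h : Bis R R' s a b a' b') :
    Bis R R' r a b a' b' := by
  induction s with
  | zero =>
    obtain rfl : r = 0 := by omega
    exact h
  | succ s ih =>
    rcases Nat.lt_or_ge s r with h1 | h1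
    · obtain rfl : r = s + 1 := by omega
      exact h
    · exact ih h1 h.1

theorem atoms {r : ℕ} {a b : D} {a' b' : D'} (h : Bis R R' r a b a' b') :
    (∀ i, R i a b ↔ R' i a' b') ∧ (∀ i, R i b a ↔ R' i b' a') ∧ (a = b ↔ a' = b') :=
  mono (Nat.zero_le r) h

theorem swap {r : ℕ} : ∀ {a b : D} {a' b' : D'}, Bis R R' r a b a' b' → Bis R R' r b a b' a' := by
  induction r with
  | zero => exact fun h => ⟨h.2.1, h.1, by rw [eq_comm, h.2.2, eq_comm]⟩
  | succ r ih =>
    intro a b a' b' h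
    refine ⟨ih h.1, fun c => ?_, fun c' => ?_⟩
    · obtain ⟨c', h1, h2⟩ := h.2.1 c
      exact ⟨c', ih h2, ih h1⟩
    · obtain ⟨c, h1, h2⟩ := h.2.2 c'
      exact ⟨c, ih h2, ih h1⟩

theorem flip {r : ℕ} : ∀ {a b : D} {a' b' : D'}, Bis R R' r a b a' b' → Bis R' R r a' b' a b := by
  induction r with
  | zero => exact fun h => ⟨fun i => (h.1 i).symm, fun i => (h.2.1 i).symm, h.2.2.symm⟩
  | succ r ih =>
    intro a b a' b' h
    refine ⟨ih h.1, fun c => ?_, fun c' => ?_⟩
    · obtain ⟨c', h1, h2⟩ := h.2.2 c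
      exact ⟨c', ih h1, ih h2⟩
    · obtain ⟨c, h1, h2⟩ := h.2.1 c'
      exact ⟨c, ih h1, ih h2⟩

theorem left {r : ℕ} {a b : D} {a' b' : D'} (h : Bis R R' (r + 1) a b a' b') :
    Bis R R' r a a a' a' := by
  obtain ⟨c', h1, h2⟩ := h.2.1 a
  have : c' = a' := (h1.atoms.2.2.1 rfl).symm
  rwa [this] at h1

theorem right {r : ℕ} {a b : D} {a' b' : D'} (h : Bis R R' (r + 1) a b a' b') :
    Bis R R' r b b b' b' := h.swap.left

theorem step {r : ℕ} {a b : D} {a' b' : D'} (h : Bis R R' (r + 1) a b a' b') (c : D) :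
    ∃ c', Bis R R' r a c a' c' ∧ Bis R R' r b c b' c' := by
  obtain ⟨c', h1, h2⟩ := h.2.1 c
  exact ⟨c', h1, h2.swap⟩

theorem step1 {r : ℕ} {a : D} {a' : D'} (h : Bis R R' (r + 1) a a a' a') (c : D) :
    ∃ c', Bis R R' r a c a' c' := by
  obtain ⟨c', h1, h2⟩ := h.2.1 c
  exact ⟨c', h1⟩

/-- Two arbitrary elements can be matched. -/
theorem pair {r : ℕ} {a b : D} {a' b' : D'} (h : Bis R R' (r + 2) a b a' b') (x y : D) :
    ∃ x' y', Bis R R' r x y x' y' := by
  obtain ⟨x', h1, -⟩ := h.step x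
  obtain ⟨y', -, h2⟩ := h1.step y
  exact ⟨x', y', h2⟩

/-- A pair can be extended by two elements. -/
theorem two {r : ℕ} {a : D} {a' : D'} (h : Bis R R' (r + 2) a a a' a') (x y : D) :
    ∃ x' y', Bis R R' r a x a' x' ∧ Bis R R' r a y a' y' ∧ Bis R R' r x y x' y' := by
  obtain ⟨x', h1⟩ := h.step1 x
  obtain ⟨y', h2, h3⟩ := h1.step y
  exact ⟨x', y', h1.mono (Nat.le_succ r), h2, h3⟩

end Bis

/-- Operations that are invariant under equivalence of rank `r` are definable. -/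
theorem def3_of_invariant {I : Type} [Finite I] (r : ℕ) :
    (∃ (ι : Type) (_ : Finite ι) (F : ι → GOp I), (∀ i, Def3 (F i)) ∧
      ∀ (D D' : Type) (R : I → D → D → Prop) (R' : I → D' → D' → Prop) (a b : D) (a' b' : D'),
        (∀ i, F i D R a b ↔ F i D' R' a' b') → Bis R R' r a b a' b') := by
  induction r with
  | zero =>
    refine ⟨(I ⊕ I) ⊕ Unit, inferInstance, Sum.elim (Sum.elim (fun i _ R x y => R i x y)
      (fun i _ R x y => R i y x)) (fun _ _ _ x y => x = y), ?_, ?_⟩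
    · rintro ((i | i) | i)
      · exact Def3.rel i
      · exact Def3.conv (Def3.rel i)
      · exact Def3.idt
    · intro D D' R R' a b a' b' h
      exact ⟨fun i => h (.inl (.inl i)), fun i => h (.inl (.inr i)), h (.inr ())⟩
  | succ r ih =>
    obtain ⟨ι, hfin, F, hF, hB⟩ := ih
    refine ⟨ι ⊕ ((ι → Prop) × (ι → Prop)), inferInstance, Sum.elim F
      (fun p D R x y => ∃ z, (∀ i, F i D R x z ↔ p.1 i) ∧ (∀ i, F i D R z y ↔ p.2 i)), ?_, ?_⟩
    · rintro (i | p)
      · exact hF i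
      · exact Def3.comp (Def3.all fun i => Def3.iff_prop (p.1 i) (hF i))
          (Def3.all fun i => Def3.iff_prop (p.2 i) (hF i))
    · intro D D' R R' a b a' b' h
      refine ⟨hB _ _ _ _ _ _ _ _ fun i => h (.inl i), fun c => ?_, fun c' => ?_⟩
      · obtain ⟨c', h1, h2⟩ := (h (.inr (fun i => F i D R a c, fun i => F i D R c b))).1
          ⟨c, fun _ => Iff.rfl, fun _ => Iff.rfl⟩
        exact ⟨c', hB _ _ _ _ _ _ _ _ fun i => (h1 i).symm, hB _ _ _ _ _ _ _ _ fun i => (h2 i).symm⟩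
      · obtain ⟨c, h1, h2⟩ := (h (.inr (fun i => F i D' R' a' c', fun i => F i D' R' c' b'))).2
          ⟨c', fun _ => Iff.rfl, fun _ => Iff.rfl⟩
        exact ⟨c, hB _ _ _ _ _ _ _ _ h1, hB _ _ _ _ _ _ _ _ h2⟩

theorem def3_of_bis {I : Type} [Finite I] {r : ℕ} {f : GOp I}
    (hf : ∀ (D D' : Type) (R : I → D → D → Prop) (R' : I → D' → D' → Prop) (a b : D) (a' b' : D'),
      Bis R R' r a b a' b' → f D R a b → f D' R' a' b') : Def3 f := by
  obtain ⟨ι, hfin, F, hF, hB⟩ := def3_of_invariant (I := I) r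
  refine Def3.congr (fun A R x y => ?_) (Def3.ex (ι := ι → Prop) fun p =>
    Def3.prop_and (∃ (D : Type) (R : I → D → D → Prop) (a b : D), f D R a b ∧
      ∀ i, F i D R a b ↔ p i) (Def3.all fun i => Def3.iff_prop (p i) (hF i)))
  constructor
  · rintro ⟨p, ⟨D, R1, a, b, h1, h2⟩, h3⟩
    exact hf _ _ _ _ _ _ _ _ (hB _ _ _ _ _ _ _ _ fun i => (h2 i).trans (h3 i).symm) h1
  · intro h
    exact ⟨fun i => F i A R x y, ⟨A, R, x, y, h, fun _ => Iff.rfl⟩, fun _ => Iff.rfl⟩

/-! ## The pigeonhole queries -/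

/-- Pigeons and holes. -/
abbrev Vtx (n : ℕ) : Type := Fin (n + 1) ⊕ Fin n

/-- Pairs of a pigeon and a hole. -/
abbrev Edg (n : ℕ) : Type := Fin (n + 1) × Fin n

/-- Incidence. -/
def inc {n : ℕ} : Vtx n → Edg n → Prop
  | .inl i, e => e.1 = i
  | .inr j, e => e.2 = j

/-- The relation symbols: one label for every vertex and edge, and one more symbol. -/
abbrev Sig (n : ℕ) : Type := Option (Vtx n ⊕ Edg n)

section Query

variable {n : ℕ} {D : Type} (R : Sig n → D → D → Prop)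

/-- The element `x` has label `t`. -/
def Lab (t : Vtx n ⊕ Edg n) (x : D) : Prop := R (some t) x x

/-- Adjacency. -/
def Adj (x y : D) : Prop := R none x y

/-- `v` has label `u` and a neighbour with every label incident with `u`. -/
def Full (u : Vtx n) (v : D) : Prop :=
  Lab R (.inl u) v ∧ ∀ f, inc u f → ∃ x, Lab R (.inr f) x ∧ Adj R v x

/-- `x` has two full neighbours of label `u`. -/
def TwoN (u : Vtx n) (x : D) : Prop :=
  ∃ v v', v ≠ v' ∧ Full R u v ∧ Full R u v' ∧ Adj R v x ∧ Adj R v' x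

/-- The first violation. -/
def W1 : Prop := ∃ (e : Edg n) (x y z : D), Lab R (.inr e) x ∧ Lab R (.inr e) y ∧ Lab R (.inr e) z ∧
  x ≠ y ∧ x ≠ z ∧ y ≠ z

/-- The second violation. -/
def W2 : Prop := ∃ (u : Vtx n) (e : Edg n) (v x y : D), Lab R (.inl u) v ∧ Lab R (.inr e) x ∧
  Lab R (.inr e) y ∧ Adj R v x ∧ Adj R v y ∧ x ≠ y

/-- The third violation. -/
def W3 : Prop := ∃ (u : Vtx n) (v w : D), Lab R (.inl u) v ∧ Lab R (.inl u) w ∧ v ≠ w ∧
  ∀ e, inc u e → ∃ x, Lab R (.inr e) x ∧ Adj R v x ∧ Adj R w x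

/-- The fourth violation. -/
def W4 : Prop := ∃ (u : Vtx n) (e : Edg n) (x y : D), Lab R (.inr e) x ∧ Lab R (.inr e) y ∧ x ≠ y ∧
  TwoN R u x ∧ TwoN R u y

/-- Some violation. -/
def Viol : Prop := W1 R ∨ W2 R ∨ W3 R ∨ W4 R

/-- `y` is a solution. -/
def IsSol (y : Vtx n ⊕ Edg n → D) : Prop :=
  (∀ t, Lab R t (y t)) ∧ ∀ u e, inc u e → Adj R (y (.inl u)) (y (.inr e))

/-- The pigeonhole query. -/
def php (n : ℕ) : GOp (Sig n) := fun _ R _ _ => Viol R ∨ ∃ y, IsSol R y

end Query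

section Transfer

variable {n : ℕ} {D D' : Type} {R : Sig n → D → D → Prop} {R' : Sig n → D' → D' → Prop}

theorem Bis.adj {r : ℕ} {x y : D} {x' y' : D'} (h : Bis R R' r x y x' y') (hl : Adj R x y) :
    Adj R' x' y' := (h.atoms.1 none).1 hl

theorem Bis.lab1 {r : ℕ} {x y : D} {x' y' : D'} (h : Bis R R' (r + 1) x y x' y')
    {t : Vtx n ⊕ Edg n} (hl : Lab R t x) : Lab R' t x' := (h.left.atoms.1 (some t)).1 hl

theorem Bis.lab2 {r : ℕ} {x y : D} {x' y' : D'} (h : Bis R R' (r + 1) x y x' y')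
    {t : Vtx n ⊕ Edg n} (hl : Lab R t y) : Lab R' t y' := (h.right.atoms.1 (some t)).1 hl

theorem Bis.ne {r : ℕ} {x y : D} {x' y' : D'} (h : Bis R R' r x y x' y') (hl : x ≠ y) :
    x' ≠ y' := fun e => hl (h.atoms.2.2.2 e)

theorem Bis.one {r : ℕ} {a b : D} {a' b' : D'} (h : Bis R R' (r + 2) a b a' b') (x : D) :
    ∃ x', Bis R R' r x x x' x' := by
  obtain ⟨x', h1, -⟩ := h.step x
  exact ⟨x', h1.right⟩

theorem Full.transfer {u : Vtx n} {v : D} {w : D'} (h : Bis R R' 2 v v w w) (hv : Full R u v) :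
    Full R' u w := by
  refine ⟨h.lab1 hv.1, fun f hf => ?_⟩
  obtain ⟨x, h1, h2⟩ := hv.2 f hf
  obtain ⟨x', h3⟩ := h.step1 x
  exact ⟨x', h3.lab2 h1, h3.adj h2⟩

theorem TwoN.transfer {u : Vtx n} {x : D} {y : D'} (h : Bis R R' 5 x x y y) (hx : TwoN R u x) :
    TwoN R' u y := by
  obtain ⟨v, v', h1, h2, h3, h4, h5⟩ := hx
  obtain ⟨w, w', h6, h7, h8⟩ := h.two v v'
  exact ⟨w, w', h8.ne h1, h2.transfer h6.right, h3.transfer h7.right, h6.swap.adj h4,
    h7.swap.adj h5⟩

theorem Viol.transfer {a b : D} {a' b' : D'} (h : Bis R R' 10 a b a' b') (hv : Viol R) :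
    Viol R' := by
  rcases hv with h1 | h1 | h1 | h1
  · obtain ⟨e, x, y, z, hx, hy, hz, hxy, hxz, hyz⟩ := h1
    obtain ⟨x', hx'⟩ := h.one x
    obtain ⟨y', z', h2, h3, h4⟩ := hx'.two y z
    exact Or.inl ⟨e, x', y', z', h2.lab1 hx, h2.lab2 hy, h3.lab2 hz, h2.ne hxy, h3.ne hxz,
      h4.ne hyz⟩
  · obtain ⟨u, e, v, x, y, hv, hx, hy, hvx, hvy, hxy⟩ := h1
    obtain ⟨v', hv'⟩ := h.one v
    obtain ⟨x', y', h2, h3, h4⟩ := hv'.two x y
    exact Or.inr (Or.inl ⟨u, e, v', x', y', h2.lab1 hv, h2.lab2 hx, h3.lab2 hy, h2.adj hvx,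
      h3.adj hvy, h4.ne hxy⟩)
  · obtain ⟨u, v, w, hv, hw, hvw, hall⟩ := h1
    obtain ⟨v', hv'⟩ := h.one v
    obtain ⟨w', h2⟩ := hv'.step1 w
    refine Or.inr (Or.inr (Or.inl ⟨u, v', w', h2.lab1 hv, h2.lab2 hw, h2.ne hvw, fun e he => ?_⟩))
    obtain ⟨x, hx, hvx, hwx⟩ := hall e he
    obtain ⟨x', h3, h4⟩ := h2.step x
    exact ⟨x', h3.lab2 hx, h3.adj hvx, h4.adj hwx⟩
  · obtain ⟨u, e, x, y, hx, hy, hxy, h3, h4⟩ := h1
    obtain ⟨x', hx'⟩ := h.one x
    obtain ⟨y', h2⟩ := hx'.step1 y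
    exact Or.inr (Or.inr (Or.inr ⟨u, e, x', y', h2.lab1 hx, h2.lab2 hy, h2.ne hxy,
      h3.transfer (hx'.mono (by omega)), h4.transfer (h2.right.mono (by omega))⟩))

/-- The neighbour of `v` with label `e` is shared with another full element. -/
def Shared (R : Sig n → D → D → Prop) (u : Vtx n) (e : Edg n) (v : D) : Prop :=
  ∃ x w, Lab R (.inr e) x ∧ Adj R v x ∧ v ≠ w ∧ Full R u w ∧ Adj R w x

theorem Shared.transfer {u : Vtx n} {e : Edg n} {v : D} {v' : D'} (h : Bis R R' 6 v v v' v')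
    (hv : Shared R u e v) : Shared R' u e v' := by
  obtain ⟨x, w, h1, h2, h3, h4, h5⟩ := hv
  obtain ⟨x', w', h6, h7, h8⟩ := h.two x w
  exact ⟨x', w', h6.lab2 h1, h6.adj h2, h7.ne h3, h4.transfer (h7.right.mono (by omega)),
    h8.swap.adj h5⟩

/-- In a structure without violations, no three different elements are equivalent to one
element of a solution. -/
theorem two_types {y : Vtx n ⊕ Edg n → D} (hy : IsSol R y) (hR' : ¬ Viol R') (t : Vtx n ⊕ Edg n)
    (z : Fin 3 → D') (hz : ∀ i, Bis R R' 10 (y t) (y t) (z i) (z i)) :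
    ¬ Function.Injective z := by
  intro hinj
  have hW1 : ¬ W1 R' := fun h => hR' (Or.inl h)
  have hW2 : ¬ W2 R' := fun h => hR' (Or.inr (Or.inl h))
  have hW3 : ¬ W3 R' := fun h => hR' (Or.inr (Or.inr (Or.inl h)))
  have hW4 : ¬ W4 R' := fun h => hR' (Or.inr (Or.inr (Or.inr h)))
  cases t with
  | inr e =>
    exact hW1 ⟨e, z 0, z 1, z 2, (hz 0).lab1 (hy.1 _), (hz 1).lab1 (hy.1 _), (hz 2).lab1 (hy.1 _),
      hinj.ne (by decide), hinj.ne (by decide), hinj.ne (by decide)⟩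
  | inl u =>
    have hfull : Full R u (y (.inl u)) :=
      ⟨hy.1 _, fun f hf => ⟨y (.inr f), hy.1 _, hy.2 u f hf⟩⟩
    have hfz : ∀ i, Full R' u (z i) := fun i => hfull.transfer ((hz i).mono (by omega))
    have key : ∀ e, inc u e → ∃ x, Lab R' (.inr e) x ∧ ∀ i, Adj R' (z i) x := by
      intro e he
      choose x hx using fun i => (hfz i).2 e he
      by_cases hx3 : Function.Injective x
      · exact absurd ⟨e, x 0, x 1, x 2, (hx 0).1, (hx 1).1, (hx 2).1, hx3.ne (by decide),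
          hx3.ne (by decide), hx3.ne (by decide)⟩ hW1
      · have hex : ∃ i j, x i = x j ∧ i ≠ j := by
          by_contra hcon
          push Not at hcon
          exact hx3 fun i j hij => hcon i j hij
        obtain ⟨i, j, hij, hne⟩ := hex
        have hsi : Shared R' u e (z i) :=
          ⟨x i, z j, (hx i).1, (hx i).2, hinj.ne hne, hfz j, hij ▸ (hx j).2⟩
        have hs : Shared R u e (y (.inl u)) := hsi.transfer ((hz i).flip.mono (by omega))
        have hall : ∀ k, TwoN R' u (x k) := by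
          intro k
          obtain ⟨x', w, h1, h2, h3, h4, h5⟩ := hs.transfer ((hz k).mono (by omega))
          have hxx : x' = x k := by
            by_contra hne'
            exact hW2 ⟨u, e, z k, x', x k, (hfz k).1, h1, (hx k).1, h2, (hx k).2, hne'⟩
          subst hxx
          exact ⟨z k, w, h3, hfz k, h4, h2, h5⟩
        refine ⟨x 0, (hx 0).1, fun k => ?_⟩
        have hxx : x k = x 0 := by
          by_contra hne'
          exact hW4 ⟨u, e, x k, x 0, (hx k).1, (hx 0).1, hne', hall k, hall 0⟩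
        rw [← hxx]
        exact (hx k).2
    exact hW3 ⟨u, z 0, z 1, (hfz 0).1, (hfz 1).1, hinj.ne (by decide), fun e he => by
      obtain ⟨x, hx, hall⟩ := key e he
      exact ⟨x, hx, hall 0, hall 1⟩⟩

/-- Pairwise intersecting sets in a set without three different elements meet. -/
theorem helly {α ι : Type} {Z : ι → Set α} {F : Finset ι} (hF : F.Nonempty)
    (hT : ∀ z : Fin 3 → α, (∀ i, ∃ s ∈ F, z i ∈ Z s) → ¬ Function.Injective z)
    (hpair : ∀ s ∈ F, ∀ t ∈ F, ∃ z, z ∈ Z s ∧ z ∈ Z t) : ∃ z, ∀ s ∈ F, z ∈ Z s := by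
  by_contra hcon
  push Not at hcon
  obtain ⟨s0, hs0⟩ := hF
  obtain ⟨z0, hz0, -⟩ := hpair s0 hs0 s0 hs0
  obtain ⟨s1, hs1, hz01⟩ := hcon z0
  obtain ⟨z1, hz1, hz11⟩ := hpair s0 hs0 s1 hs1
  obtain ⟨s2, hs2, hz12⟩ := hcon z1
  obtain ⟨z2, hz2, hz21⟩ := hpair s2 hs2 s1 hs1
  have h01 : z0 ≠ z1 := fun h => hz01 (h ▸ hz11)
  have h02 : z0 ≠ z2 := fun h => hz01 (h ▸ hz21)
  have h12 : z1 ≠ z2 := fun h => hz12 (h ▸ hz2)
  refine hT ![z0, z1, z2] ?_ ?_
  · intro i
    fin_cases i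
    · exact ⟨s0, hs0, hz0⟩
    · exact ⟨s0, hs0, hz1⟩
    · exact ⟨s1, hs1, hz21⟩
  · intro i j hij
    fin_cases i <;> fin_cases j <;> simp_all

theorem solve {a b : D} {a' b' : D'} {y : Vtx n ⊕ Edg n → D} (hy : IsSol R y) (hR' : ¬ Viol R')
    (F : Finset (Vtx n ⊕ Edg n)) : ∀ r, 10 ≤ r → Bis R R' (r + 2 * F.card + 4) a b a' b' →
      ∃ y' : Vtx n ⊕ Edg n → D', ∀ s ∈ F, ∀ t ∈ F, Bis R R' r (y s) (y t) (y' s) (y' t) := by
  classical
  induction F using Finset.induction_on with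
  | empty => exact fun r _ _ => ⟨fun _ => a', by simp⟩
  | insert t F ht ih =>
    intro r hr h
    rw [Finset.card_insert_of_notMem ht] at h
    rcases F.eq_empty_or_nonempty with rfl | hF
    · obtain ⟨x', hx'⟩ := (h.mono (show r + 2 ≤ _ by simp)).one (y t)
      refine ⟨fun _ => x', fun s hs s' hs' => ?_⟩
      simp only [insert_empty_eq, Finset.mem_singleton] at hs hs'
      subst hs hs'
      exact hx'
    · obtain ⟨y', hy'⟩ := ih (r + 2) (by omega) (h.mono (by omega))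
      obtain ⟨z, hz⟩ := helly (Z := fun s => {z | Bis R R' (r + 1) (y s) (y t) (y' s) z}) hF
        (by
          intro z hz
          refine two_types hy hR' t z fun i => ?_
          obtain ⟨s, -, hs⟩ := hz i
          exact Bis.mono hr (Bis.right hs))
        (by
          intro s hs s' hs'
          obtain ⟨z, h1, h2⟩ := (hy' s hs s' hs').step (y t)
          exact ⟨z, h1, h2⟩)
      have hne : ∀ s ∈ F, s ≠ t := fun s hs h => ht (h ▸ hs)
      refine ⟨Function.update y' t z, fun s hs s' hs' => ?_⟩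
      rcases Finset.mem_insert.1 hs with h1 | h1 <;> rcases Finset.mem_insert.1 hs' with h2 | h2
      · obtain ⟨s0, hs0⟩ := hF
        rw [h1, h2, Function.update_self]
        exact Bis.right (hz s0 hs0)
      · rw [h1, Function.update_self, Function.update_of_ne (hne s' h2)]
        exact (Bis.mono (by omega) (hz s' h2)).swap
      · rw [h2, Function.update_self, Function.update_of_ne (hne s h1)]
        exact Bis.mono (by omega) (hz s h1)
      · rw [Function.update_of_ne (hne s h1), Function.update_of_ne (hne s' h2)]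
        exact (hy' s h1 s' h2).mono (by omega)

theorem php_transfer {a b : D} {a' b' : D'}
    (h : Bis R R' (14 + 2 * Fintype.card (Vtx n ⊕ Edg n)) a b a' b') {c d : D} {c' d' : D'}
    (hp : php n D R c d) : php n D' R' c' d' := by
  by_cases hv : Viol R'
  · exact Or.inl hv
  · rcases hp with h1 | ⟨y, hy⟩
    · exact absurd (h1.transfer (h.mono (by omega))) hv
    · obtain ⟨y', hy'⟩ := solve hy hv Finset.univ 10 le_rfl
        (h.mono (by rw [Finset.card_univ]; omega))
      exact Or.inr ⟨y', fun t => (hy' t (Finset.mem_univ t) t (Finset.mem_univ t)).lab1 (hy.1 t),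
        fun u e he => (hy' _ (Finset.mem_univ _) _ (Finset.mem_univ _)).adj (hy.2 u e he)⟩

end Transfer

theorem php_def3 (n : ℕ) : Def3 (php n) :=
  def3_of_bis fun _ _ _ _ _ _ _ _ h hp => php_transfer h hp

/-! ## The two structures -/

/-- The domain of the structure without a solution. -/
inductive NDom (n : ℕ) : Type
  | q (u : Vtx n) (e : Edg n) : NDom n
  | p (e : Edg n) (b : Bool) : NDom n
  | junk (k : ℕ) : NDom n

instance (n : ℕ) : Infinite (NDom n) :=
  Infinite.of_injective NDom.junk fun _ _ h => NDom.junk.inj h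

/-- The structure with a solution. -/
def MRel (n : ℕ) : Sig n → (Vtx n ⊕ Edg n) → (Vtx n ⊕ Edg n) → Prop
  | some t, x, y => x = t ∧ y = t
  | none, x, y => ∃ u e, x = .inl u ∧ y = .inr e ∧ inc u e

/-- The structure without a solution. -/
def NRel (n : ℕ) : Sig n → NDom n → NDom n → Prop
  | some (.inl u), x, y => ∃ e, inc u e ∧ x = .q u e ∧ y = .q u e
  | some (.inr e), x, y => ∃ b, x = .p e b ∧ y = .p e b
  | none, x, y => ∃ u e f b, inc u e ∧ inc u f ∧ x = .q u e ∧ y = .p f b ∧ (b = true ↔ e = f)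

theorem php_M (n : ℕ) (x y : Vtx n ⊕ Edg n) : php n _ (MRel n) x y :=
  Or.inr ⟨id, fun _ => ⟨rfl, rfl⟩, fun u e he => ⟨u, e, rfl, rfl, he⟩⟩

theorem labN_inl {n : ℕ} {u : Vtx n} {x : NDom n} (h : Lab (NRel n) (.inl u) x) :
    ∃ e, inc u e ∧ x = .q u e := by
  obtain ⟨e, h1, h2, -⟩ := h
  exact ⟨e, h1, h2⟩

theorem labN_inr {n : ℕ} {e : Edg n} {x : NDom n} (h : Lab (NRel n) (.inr e) x) :
    ∃ b, x = .p e b := by
  obtain ⟨b, h1, -⟩ := h
  exact ⟨b, h1⟩

theorem adjN {n : ℕ} {u : Vtx n} {e f : Edg n} {b : Bool}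
    (h : Adj (NRel n) (.q u e) (.p f b)) : b = true ↔ e = f := by
  obtain ⟨u', e', f', b', -, -, h1, h2, h3⟩ := h
  simp only [NDom.q.injEq, NDom.p.injEq] at h1 h2
  obtain ⟨rfl, rfl⟩ := h1
  obtain ⟨rfl, rfl⟩ := h2
  exact h3

theorem not_php_N (n : ℕ) (x y : NDom n) : ¬ php n _ (NRel n) x y := by
  rintro ((h | h | h | h) | h)
  · obtain ⟨e, x, y, z, hx, hy, hz, hxy, hxz, hyz⟩ := h
    obtain ⟨b1, rfl⟩ := labN_inr hx
    obtain ⟨b2, rfl⟩ := labN_inr hy
    obtain ⟨b3, rfl⟩ := labN_inr hz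
    cases b1 <;> cases b2 <;> cases b3 <;> simp_all
  · obtain ⟨u, e, v, x, y, hv, hx, hy, h1, h2, h3⟩ := h
    obtain ⟨f, -, rfl⟩ := labN_inl hv
    obtain ⟨b1, rfl⟩ := labN_inr hx
    obtain ⟨b2, rfl⟩ := labN_inr hy
    have h4 := (adjN h1).trans (adjN h2).symm
    have h5 : b1 = b2 := by
      cases b1 <;> cases b2 <;> simp_all
    exact h3 (by rw [h5])
  · obtain ⟨u, v, w, hv, hw, hvw, hall⟩ := h
    obtain ⟨e, he, rfl⟩ := labN_inl hv
    obtain ⟨f, hf, rfl⟩ := labN_inl hw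
    obtain ⟨x, hx, h1, h2⟩ := hall e he
    obtain ⟨b, rfl⟩ := labN_inr hx
    exact hvw (by rw [(adjN h2).1 ((adjN h1).2 rfl)])
  · obtain ⟨u, e, x, y, hx, hy, hxy, h1, h2⟩ := h
    obtain ⟨b1, rfl⟩ := labN_inr hx
    obtain ⟨b2, rfl⟩ := labN_inr hy
    have key : ∀ b : Bool, TwoN (NRel n) u (.p e b) → b ≠ true := by
      rintro b ⟨v, w, hvw, hv, hw, h3, h4⟩ rfl
      obtain ⟨f, -, rfl⟩ := labN_inl hv.1
      obtain ⟨g, -, rfl⟩ := labN_inl hw.1
      exact hvw (by rw [(adjN h3).1 rfl, (adjN h4).1 rfl])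
    have e1 := key b1 h1
    have e2 := key b2 h2
    cases b1 <;> cases b2 <;> simp_all
  · obtain ⟨y, hy1, hy2⟩ := h
    choose E hE1 hE2 using fun u => labN_inl (hy1 (.inl u))
    choose B hB using fun e => labN_inr (hy1 (.inr e))
    have h1 : ∀ u e, inc u e → (B e = true ↔ E u = e) := by
      intro u e he
      have := hy2 u e he
      rw [hE2, hB] at this
      exact adjN this
    have h2 : ∀ i : Fin (n + 1), E (.inl i) = E (.inr (E (.inl i)).2) := by
      intro i
      exact ((h1 (.inr (E (.inl i)).2) (E (.inl i)) rfl).1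
        ((h1 (.inl i) (E (.inl i)) (hE1 _)).2 rfl)).symm
    have h3 : Function.Injective fun i : Fin (n + 1) => (E (.inl i)).2 := by
      intro i j hij
      have h4 : E (.inl i) = E (.inl j) := by
        rw [h2 i, h2 j]
        exact congrArg (fun k => E (.inr k)) hij
      have h5 : (E (.inl i)).1 = i := hE1 (.inl i)
      have h6 : (E (.inl j)).1 = j := hE1 (.inl j)
      rw [← h5, ← h6, h4]
    have := Fintype.card_le_of_injective _ h3
    simp at this

/-! ## The strategy -/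

/-- The edges are pairwise disjoint. -/
def IsMat {n : ℕ} (μ : Finset (Edg n)) : Prop := ∀ e ∈ μ, ∀ f ∈ μ, ∀ u, inc u e → inc u f → e = f

/-- The pairs allowed by a matching. -/
def Gr {n : ℕ} (μ : Finset (Edg n)) (p : (Vtx n ⊕ Edg n) × NDom n) : Prop :=
  (∃ u e, e ∈ μ ∧ inc u e ∧ p = (.inl u, .q u e)) ∨ (∃ e, e ∈ μ ∧ p = (.inr e, .p e true)) ∨
    ∃ e, e ∉ μ ∧ (∃ u, inc u e ∧ ∃ f ∈ μ, inc u f) ∧ p = (.inr e, .p e false)

/-- The strategy. -/
def Str (n : ℕ) (h : Finset ((Vtx n ⊕ Edg n) × NDom n)) : Prop :=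
  ∃ μ : Finset (Edg n), IsMat μ ∧ μ.card ≤ h.card ∧ ∀ p ∈ h, Gr μ p

theorem Gr.fn {n : ℕ} {μ : Finset (Edg n)} (hμ : IsMat μ) {p q : (Vtx n ⊕ Edg n) × NDom n}
    (hp : Gr μ p) (hq : Gr μ q) : p.1 = q.1 ↔ p.2 = q.2 := by
  rcases hp with ⟨u, e, h1, h2, rfl⟩ | ⟨e, h1, rfl⟩ | ⟨e, h1, h2, rfl⟩ <;>
  rcases hq with ⟨v, f, h3, h4, rfl⟩ | ⟨f, h3, rfl⟩ | ⟨f, h3, h4, rfl⟩
  · simp only [Sum.inl.injEq, NDom.q.injEq]
    constructor
    · rintro rfl
      exact ⟨rfl, hμ _ h1 _ h3 _ h2 h4⟩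
    · exact fun h => h.1
  · simp
  · simp
  · simp
  · simp
  · simp only [Sum.inr.injEq, NDom.p.injEq]
    constructor
    · rintro rfl
      exact absurd h1 h3
    · exact fun h => h.1
  · simp
  · simp only [Sum.inr.injEq, NDom.p.injEq]
    constructor
    · rintro rfl
      exact absurd h3 h1
    · exact fun h => h.1
  · simp

theorem Gr.witness {n : ℕ} {μ : Finset (Edg n)} {p : (Vtx n ⊕ Edg n) × NDom n} (hp : Gr μ p) :
    ∃ f ∈ μ, ∀ ν ⊆ μ, f ∈ ν → Gr ν p := by
  rcases hp with ⟨u, e, h1, h2, rfl⟩ | ⟨e, h1, rfl⟩ | ⟨e, h1, ⟨u, h2, f, h3, h4⟩, rfl⟩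
  · exact ⟨e, h1, fun ν _ h => Or.inl ⟨u, e, h, h2, rfl⟩⟩
  · exact ⟨e, h1, fun ν _ h => Or.inr (Or.inl ⟨e, h, rfl⟩)⟩
  · exact ⟨f, h3, fun ν hν h => Or.inr (Or.inr ⟨e, fun h' => h1 (hν h'), ⟨u, h2, f, h, h4⟩, rfl⟩)⟩

theorem Gr.insert {n : ℕ} {μ : Finset (Edg n)} {p : (Vtx n ⊕ Edg n) × NDom n} (hp : Gr μ p)
    {e : Edg n} (he : ∀ u, inc u e → ∀ f ∈ μ, ¬ inc u f) : Gr (insert e μ) p := by
  rcases hp with ⟨u, f, h1, h2, rfl⟩ | ⟨f, h1, rfl⟩ | ⟨f, h1, ⟨u, h2, g, h3, h4⟩, rfl⟩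
  · exact Or.inl ⟨u, f, Finset.mem_insert_of_mem h1, h2, rfl⟩
  · exact Or.inr (Or.inl ⟨f, Finset.mem_insert_of_mem h1, rfl⟩)
  · refine Or.inr (Or.inr ⟨f, fun h => ?_, ⟨u, h2, g, Finset.mem_insert_of_mem h3, h4⟩, rfl⟩)
    rcases Finset.mem_insert.1 h with rfl | h
    · exact he u h2 g h3 h4
    · exact h1 h

theorem IsMat.insert {n : ℕ} {μ : Finset (Edg n)} (hμ : IsMat μ)
    {e : Edg n} (he : ∀ u, inc u e → ∀ f ∈ μ, ¬ inc u f) : IsMat (insert e μ) := by
  intro f hf g hg u h1 h2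
  rcases Finset.mem_insert.1 hf with h3 | h3 <;> rcases Finset.mem_insert.1 hg with h4 | h4
  · rw [h3, h4]
  · rw [h3] at h1
    exact absurd h2 (he u h1 g h4)
  · rw [h4] at h2
    exact absurd h1 (he u h2 f h3)
  · exact hμ f h3 g h4 u h1 h2

theorem exists_edge {n : ℕ} {μ : Finset (Edg n)} (hc : μ.card < n)
    (d : Vtx n ⊕ Edg n) (hd : ∀ d', ¬ Gr μ (d, d')) :
    ∃ e : Edg n, (∀ u, inc u e → ∀ f ∈ μ, ¬ inc u f) ∧ ∃ d', Gr (insert e μ) (d, d') := by
  rcases d with (i | j) | e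
  · obtain ⟨j, -, hj⟩ := Finset.exists_mem_notMem_of_card_lt_card
      (s := μ.image Prod.snd) (t := (Finset.univ : Finset (Fin n)))
      (by rw [Finset.card_univ, Fintype.card_fin]; exact Finset.card_image_le.trans_lt hc)
    refine ⟨(i, j), ?_, _, Or.inl ⟨.inl i, (i, j), Finset.mem_insert_self _ _, rfl, rfl⟩⟩
    rintro (i' | j') hu f hf hf'
    · obtain rfl : i = i' := hu
      exact hd _ (Or.inl ⟨.inl i, f, hf, hf', rfl⟩)
    · obtain rfl : j = j' := hu
      exact hj (Finset.mem_image.2 ⟨f, hf, hf'⟩)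
  · obtain ⟨i, -, hi⟩ := Finset.exists_mem_notMem_of_card_lt_card
      (s := μ.image Prod.fst) (t := (Finset.univ : Finset (Fin (n + 1))))
      (by rw [Finset.card_univ, Fintype.card_fin]; exact Finset.card_image_le.trans_lt (by omega))
    refine ⟨(i, j), ?_, _, Or.inl ⟨.inr j, (i, j), Finset.mem_insert_self _ _, rfl, rfl⟩⟩
    rintro (i' | j') hu f hf hf'
    · obtain rfl : i = i' := hu
      exact hi (Finset.mem_image.2 ⟨f, hf, hf'⟩)
    · obtain rfl : j = j' := hu
      exact hd _ (Or.inl ⟨.inr j, f, hf, hf', rfl⟩)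
  · by_cases h : e ∈ μ
    · exact absurd (Or.inr (Or.inl ⟨e, h, rfl⟩)) (hd _)
    · refine ⟨e, fun u hu f hf hf' => ?_, _, Or.inr (Or.inl ⟨e, Finset.mem_insert_self _ _, rfl⟩)⟩
      exact hd _ (Or.inr (Or.inr ⟨e, h, ⟨u, hu, f, hf, hf'⟩, rfl⟩))

theorem strategy {n K : ℕ} (hK : K ≤ n) : Strategy K (Str n) := by
  classical
  refine ⟨?_, ?_, ?_⟩
  · rintro h ⟨μ, hμ, -, hG⟩ p hp q hq
    exact Gr.fn hμ (hG p hp) (hG q hq)
  · rintro h h' hsub ⟨μ, hμ, -, hG⟩
    choose f hf hf' using fun (p : {p // p ∈ h'}) => (hG p.1 (hsub p.2)).witness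
    refine ⟨h'.attach.image f, ?_, ?_, fun p hp => ?_⟩
    · intro e he g hg u
      obtain ⟨p, -, rfl⟩ := Finset.mem_image.1 he
      obtain ⟨q, -, rfl⟩ := Finset.mem_image.1 hg
      exact hμ _ (hf p) _ (hf q) u
    · exact Finset.card_image_le.trans (by rw [Finset.card_attach])
    · refine hf' ⟨p, hp⟩ _ (fun e he => ?_)
        (Finset.mem_image_of_mem f (Finset.mem_attach _ ⟨p, hp⟩))
      obtain ⟨q, -, rfl⟩ := Finset.mem_image.1 he
      exact hf q
  · rintro h ⟨μ, hμ, hc, hG⟩ hcard d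
    by_cases h1 : ∃ d', (d, d') ∈ h
    · exact ⟨h, ⟨μ, hμ, hc, hG⟩, subset_rfl, h1⟩
    · have hnot : ∀ d', (d, d') ∉ h := fun d' hd' => h1 ⟨d', hd'⟩
      by_cases h2 : ∃ d', Gr μ (d, d')
      · obtain ⟨d', hd'⟩ := h2
        refine ⟨insert (d, d') h, ⟨μ, hμ, ?_, ?_⟩, Finset.subset_insert _ _, d',
          Finset.mem_insert_self _ _⟩
        · rw [Finset.card_insert_of_notMem (hnot d')]
          omega
        · intro p hp
          rcases Finset.mem_insert.1 hp with rfl | hp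
          · exact hd'
          · exact hG p hp
      · obtain ⟨e, he, d', hd'⟩ := exists_edge (show μ.card < n by omega) d
          fun d' h => h2 ⟨d', h⟩
        refine ⟨insert (d, d') h, ⟨insert e μ, hμ.insert he, ?_, ?_⟩, Finset.subset_insert _ _, d',
          Finset.mem_insert_self _ _⟩
        · rw [Finset.card_insert_of_notMem (hnot d')]
          have := Finset.card_insert_le e μ
          omega
        · intro p hp
          rcases Finset.mem_insert.1 hp with rfl | hp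
          · exact hd'
          · exact (hG p hp).insert he

theorem pres_rel {n : ℕ} (i : Sig n) : Pres (Str n) (MRel n i) (NRel n i) := by
  rintro h ⟨μ, hμ, -, hG⟩ p hp q hq hpq
  have gp := hG p hp
  have gq := hG q hq
  rcases i with _ | t
  · obtain ⟨u, e, h1, h2, h3⟩ := hpq
    rcases gp with ⟨v, f, h4, h5, rfl⟩ | ⟨f, h4, rfl⟩ | ⟨f, h4, h5, rfl⟩
    · obtain rfl : v = u := Sum.inl.inj h1
      rcases gq with ⟨v', g, h6, h7, rfl⟩ | ⟨g, h6, rfl⟩ | ⟨g, h6, h7, rfl⟩
      · exact absurd h2 (by simp)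
      · obtain rfl : g = e := Sum.inr.inj h2
        exact ⟨v, f, g, true, h5, h3, rfl, rfl, by simpa using hμ _ h4 _ h6 _ h5 h3⟩
      · obtain rfl : g = e := Sum.inr.inj h2
        exact ⟨v, f, g, false, h5, h3, rfl, rfl, by
          simp only [Bool.false_eq_true, false_iff]
          rintro rfl
          exact h6 h4⟩
    · exact absurd h1 (by simp)
    · exact absurd h1 (by simp)
  · obtain ⟨h1, h2⟩ := hpq
    have h3 : p.2 = q.2 := (Gr.fn hμ gp gq).1 (h1.trans h2.symm)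
    rw [← h3]
    rcases gp with ⟨v, f, h4, h5, rfl⟩ | ⟨f, h4, rfl⟩ | ⟨f, h4, h5, rfl⟩
    · obtain rfl : Sum.inl v = t := h1
      exact ⟨f, h5, rfl, rfl⟩
    · obtain rfl : Sum.inr f = t := h1
      exact ⟨true, rfl, rfl⟩
    · obtain rfl : Sum.inr f = t := h1
      exact ⟨false, rfl, rfl⟩

/-! ## The theorem -/

theorem php_mono {n : ℕ} {A B : Type} (e : A ↪ B) {Q : Sig n → A → A → Prop}
    {R : Sig n → B → B → Prop} (h : ∀ i x y, Q i x y → R i (e x) (e y)) {a b : A} {c d : B}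
    (hp : php n A Q a b) : php n B R c d := by
  have hl : ∀ {t x}, Lab Q t x → Lab R t (e x) := fun hx => h _ _ _ hx
  have ha : ∀ {x y}, Adj Q x y → Adj R (e x) (e y) := fun hx => h _ _ _ hx
  have hf : ∀ {u v}, Full Q u v → Full R u (e v) := fun hv => ⟨hl hv.1, fun f hf => by
    obtain ⟨x, h1, h2⟩ := hv.2 f hf
    exact ⟨e x, hl h1, ha h2⟩⟩
  have ht : ∀ {u x}, TwoN Q u x → TwoN R u (e x) := by
    rintro u x ⟨v, w, h1, h2, h3, h4, h5⟩
    exact ⟨e v, e w, e.injective.ne h1, hf h2, hf h3, ha h4, ha h5⟩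
  rcases hp with (h1 | h1 | h1 | h1) | h1
  · obtain ⟨f, x, y, z, hx, hy, hz, hxy, hxz, hyz⟩ := h1
    exact Or.inl (Or.inl ⟨f, e x, e y, e z, hl hx, hl hy, hl hz, e.injective.ne hxy,
      e.injective.ne hxz, e.injective.ne hyz⟩)
  · obtain ⟨u, f, v, x, y, hv, hx, hy, h1, h2, h3⟩ := h1
    exact Or.inl (Or.inr (Or.inl ⟨u, f, e v, e x, e y, hl hv, hl hx, hl hy, ha h1, ha h2,
      e.injective.ne h3⟩))
  · obtain ⟨u, v, w, hv, hw, h1, h2⟩ := h1
    refine Or.inl (Or.inr (Or.inr (Or.inl ⟨u, e v, e w, hl hv, hl hw, e.injective.ne h1,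
      fun f hf => ?_⟩)))
    obtain ⟨x, h3, h4, h5⟩ := h2 f hf
    exact ⟨e x, hl h3, ha h4, ha h5⟩
  · obtain ⟨u, f, x, y, hx, hy, h1, h2, h3⟩ := h1
    exact Or.inl (Or.inr (Or.inr (Or.inr ⟨u, f, e x, e y, hl hx, hl hy, e.injective.ne h1, ht h2,
      ht h3⟩)))
  · obtain ⟨y, h1, h2⟩ := h1
    exact Or.inr ⟨fun t => e (y t), fun t => hl (h1 t), fun u f hf => ha (h2 u f hf)⟩

/-- The pigeonhole query as an operation. -/
noncomputable def phpOp (n : ℕ) : Op (Fintype.card (Sig n)) :=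
  fun D R x y => php n D (fun i => R (Fintype.equivFin (Sig n) i)) x y

theorem phpOp_mem (n : ℕ) : (⟨_, phpOp n⟩ : Σ k, Op k) ∈ WeakSafeTRA := by
  refine ⟨?_, definable_of_def3 ?_⟩
  · intro A B e Q R h a b hp
    exact php_mono (a := a) (b := b) (c := e a) (d := e b) e (fun i x y hxy => h _ _ _ hxy) hp
  · exact Def3.subst (php_def3 n) (g := fun i _ R x y => R (Fintype.equivFin (Sig n) i) x y)
      fun i => Def3.rel _

theorem main {C : Set (Σ k, Op k)} (hC : Closed C) (hW : WeakSafeTRA ⊆ C)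
    (hS : C ⊆ SafeFO) {O : Set (Σ k, Op k)} (hfin : O.Finite) (hO : O ⊆ C) :
    ∃ o ∈ WeakSafeTRA, ¬ Definable O o.2 := by
  by_contra hcon
  push Not at hcon
  have hb : ∀ o ∈ O, ∃ N : ℕ, ∀ (D : Type) (R : Fin o.1 → D → D → Prop) (a b : D), o.2 D R a b →
      ∃ s : Finset D, s.card ≤ N ∧ OnFin o.2 D R s a b :=
    fun o ho => exists_bound (hS (hO ho)).1 (hS (hO ho)).2
  choose! N hN using hb
  obtain ⟨K, hK⟩ : ∃ K, ∀ o ∈ O, N o ≤ K := by
    obtain ⟨K, hK⟩ := (hfin.image N).bddAbove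
    exact ⟨K, fun o ho => hK (Set.mem_image_of_mem N ho)⟩
  let n := K + 2
  obtain ⟨t, ht⟩ := hcon _ (phpOp_mem n)
  let eqv := Fintype.equivFin (Sig n)
  have hpres := pres_term hC hW hS hO (K := K + 2)
    (fun k f hf => ⟨N ⟨k, f⟩, by have := hK _ hf; omega, hN _ hf⟩)
    (strategy (n := n) (K := K + 2) le_rfl)
    (X := fun i => MRel n (eqv.symm i)) (Y := fun i => NRel n (eqv.symm i))
    (fun i => pres_rel (eqv.symm i)) t
  have h0 : Str n (∅ : Finset ((Vtx n ⊕ Edg n) × NDom n)) :=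
    ⟨∅, fun e he => absurd he (Finset.notMem_empty e), by simp, fun p hp =>
      absurd hp (Finset.notMem_empty p)⟩
  obtain ⟨h, hh, -, d', hd'⟩ := (strategy (n := n) (K := K + 2) le_rfl).forth ∅ h0 (by simp)
    (.inl (.inl 0))
  have h1 := hpres h hh _ hd' _ hd'
  rw [ht, ht] at h1
  have h2 : phpOp n _ (fun i => MRel n (eqv.symm i)) (.inl (.inl 0)) (.inl (.inl 0)) := by
    show php n _ (fun i => MRel n (eqv.symm (eqv i))) _ _
    simp only [Equiv.symm_apply_apply]
    exact php_M n _ _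
  have h3 := h1 h2
  have h4 : php n _ (fun i => NRel n (eqv.symm (eqv i))) d' d' := h3
  simp only [Equiv.symm_apply_apply] at h4
  exact not_php_N n _ _ h4

theorem weakSafe_term {n : ℕ} (t : Term WeakSafeTRA n) : WeakSafe t.eval ∧
    Def3 (t.eval : GOp (Fin n)) := by
  induction t with
  | rel i => exact ⟨fun A B e Q R h a b hab => h _ _ _ hab, Def3.rel i⟩
  | app k f hf args ih =>
    refine ⟨fun A B e Q R h a b hab => ?_, ?_⟩
    · exact hf.1 A B e _ _ (fun i x y hxy => (ih i).1 A B e Q R h x y hxy) a b hab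
    · exact Def3.subst (def3_of_definable hf.2) fun i => (ih i).2

theorem closed_weakSafeTRA : Closed WeakSafeTRA := by
  rintro n f ⟨t, ht⟩
  have h1 : t.eval = f := by
    funext A R
    exact ht A R
  subst h1
  exact ⟨(weakSafe_term t).1, definable_of_def3 (weakSafe_term t).2⟩

theorem weakSafeTRA_subset : WeakSafeTRA ⊆ SafeTRA :=
  fun _ ho => ⟨fun A B e R a b h => ho.1 A B e _ R (fun _ _ _ hxy => hxy) a b h, ho.2⟩

theorem properSafe_term {n : ℕ} (t : Term MaxSafeTRA n) : Safe t.eval ∧ ProperSafe t.eval ∧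
    Def3 (t.eval : GOp (Fin n)) := by
  induction t with
  | rel i => exact ⟨fun A B e R a b h => h, fun A B e Q R h _ a b hab => h _ _ _ hab, Def3.rel i⟩
  | app k f hf args ih =>
    refine ⟨fun A B e R a b h => ?_, fun A B e Q R h hw a b hab => ?_, ?_⟩
    · by_cases hw : ∃ w, ∀ x, e x ≠ w
      · exact hf.2.1 A B e _ _ (fun i x y hxy => (ih i).1 A B e R x y hxy) hw a b h
      · push Not at hw
        refine hf.1 A B e _ a b ?_
        have h1 : (fun (i : Fin k) (x y : A) => (args i).eval B R (e x) (e y)) =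
            fun i => (args i).eval A fun j x y => R j (e x) (e y) := by
          funext i x y
          apply propext
          constructor
          · intro hxy
            let e' : B ≃ A := (Equiv.ofBijective e ⟨e.injective, hw⟩).symm
            have he : ∀ z, e (e' z) = z := fun z =>
              (Equiv.ofBijective e ⟨e.injective, hw⟩).apply_symm_apply z
            have he' : ∀ z, e' (e z) = z := fun z =>
              (Equiv.ofBijective e ⟨e.injective, hw⟩).symm_apply_apply z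
            have h2 := (ih i).1 B A e'.toEmbedding (fun j x y => R j (e x) (e y)) (e x) (e y)
            have h3 : (fun (j : Fin _) (x y : B) => R j (e (e'.toEmbedding x))
                (e (e'.toEmbedding y))) = R := by
              funext j x y
              show R j (e (e' x)) (e (e' y)) = _
              rw [he, he]
            rw [h3] at h2
            have h4 := h2 hxy
            have h5 : e'.toEmbedding (e x) = x := he' x
            have h6 : e'.toEmbedding (e y) = y := he' y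
            rwa [h5, h6] at h4
          · exact (ih i).1 A B e R x y
        rw [h1]
        exact h
    · exact hf.2.1 A B e _ _ (fun i x y hxy => (ih i).2.1 A B e Q R h hw x y hxy) hw a b hab
    · exact Def3.subst (def3_of_definable hf.2.2) fun i => (ih i).2.2

theorem closed_maxSafeTRA : Closed MaxSafeTRA := by
  rintro n f ⟨t, ht⟩
  have h1 : t.eval = f := by
    funext A R
    exact ht A R
  subst h1
  exact ⟨(properSafe_term t).1, (properSafe_term t).2.1, definable_of_def3 (properSafe_term t).2.2⟩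

theorem tau_of {C : Set (Σ k, Op k)} (hC : Closed C) (hB : Basic ⊆ C) :
    (⟨3, tau⟩ : Σ k, Op k) ∈ C := by
  have h1 : (⟨2, unionOp⟩ : Σ k, Op k) ∈ C := hB (by simp [Basic])
  have h2 : (⟨2, interOp⟩ : Σ k, Op k) ∈ C := hB (by simp [Basic])
  have h3 : (⟨2, compOp⟩ : Σ k, Op k) ∈ C := hB (by simp [Basic])
  have h4 : (⟨0, topOp⟩ : Σ k, Op k) ∈ C := hB (by simp [Basic])
  refine hC 3 tau ⟨.app 2 unionOp h1 ![.rel 0, .app 2 interOp h2 ![.rel 1, .app 2 compOp h3
    ![.app 0 topOp h4 Fin.elim0, .app 2 compOp h3 ![.rel 2, .app 0 topOp h4 Fin.elim0]]]],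
    fun A R => ?_⟩
  funext x y
  show (R 0 x y ∨ (R 1 x y ∧ ∃ z, True ∧ ∃ w, R 2 z w ∧ True)) =
    (R 0 x y ∨ (R 1 x y ∧ ∃ u v, R 2 u v))
  simp only [true_and, and_true]

theorem subset_max {C : Set (Σ k, Op k)} (hC : Closed C) (hB : Basic ⊆ C) (hS : C ⊆ SafeTRA) :
    C ⊆ MaxSafeTRA := by
  rintro ⟨n, f⟩ hf
  refine ⟨(hS hf).1, fun A B e Q R h hw a b hab => ?_, (hS hf).2⟩
  obtain ⟨w, hw⟩ := hw
  exact proper_ext hC (tau_of hC hB) (hS.trans safeTRA_subset) hf e w hw h hab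

theorem weakSafeTRA_subset_max : WeakSafeTRA ⊆ MaxSafeTRA :=
  fun _ ho => ⟨(weakSafeTRA_subset ho).1, fun A B e Q R h _ a b hab => ho.1 A B e Q R h a b hab,
    ho.2⟩

theorem basic_subset : Basic ⊆ WeakSafeTRA := by
  intro o ho
  simp only [Basic, Set.mem_insert_iff, Set.mem_singleton_iff] at ho
  rcases ho with rfl | rfl | rfl | rfl
  · refine ⟨?_, definable_of_def3 (Def3.union (Def3.rel 0) (Def3.rel 1))⟩
    rintro A B e Q R h a b (h1 | h1)
    · exact Or.inl (h _ _ _ h1)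
    · exact Or.inr (h _ _ _ h1)
  · refine ⟨?_, definable_of_def3 (Def3.inter (Def3.rel 0) (Def3.rel 1))⟩
    rintro A B e Q R h a b ⟨h1, h2⟩
    exact ⟨h _ _ _ h1, h _ _ _ h2⟩
  · refine ⟨?_, definable_of_def3 (Def3.comp (Def3.rel 0) (Def3.rel 1))⟩
    rintro A B e Q R h a b ⟨z, h1, h2⟩
    exact ⟨e z, h _ _ _ h1, h _ _ _ h2⟩
  · exact ⟨fun _ _ _ _ _ _ _ _ _ => trivial, definable_of_def3 Def3.top⟩

end Pool.Agent.Work.MP_3f6cab_lc
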